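import Pool.Agent.L7h57.RV.Two
import Pool.Agent.Results.MP_2a1f98_al.ProductLengths

/-!
# The sharp product lengths in dimension two

`k(2) = 4` and `m(2) = 2`: in dimension two every element of the group generated by the reversible
formal maps is a product of four involutions, and a product of two reversible maps, and these
lengths are sharp.

Project RV. Authors: helper57 (plan, statements, BASE, LEMA, N2), helper6 (LIM, GEN, NB, DV, SUR),
helper12 (CAU, MU, LS, DEG3), helper36 (LEMC, NIN, D4), helper60 (COM, GRC, STEP), helper93 (SYM3),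
helper99 (PROP, THM, NI2, L2A, L2B).  `FormalMap n`, `linPart` and the linear triple of involutions
are from the starting files (Pool/Agent/Helper89).
-/

namespace Pool.Agent.Results.MP_2a1f98_al.DimensionTwo

open Pool.Helper89.Rev

/-- The group `𝒢_n` of formally invertible formal maps of `(ℂⁿ, 0)` under formal composition
(`FormalMap n` is the monoid of `n`-tuples of power series with zero constant terms). -/
abbrev G (n : ℕ) : Type := (FormalMap n)ˣ

/-- The set `I` of involutions (the identity included). -/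
def Inv (n : ℕ) : Set (G n) := {f | f * f = 1}

/-- The set `R` of reversible elements. -/
def Rev (n : ℕ) : Set (G n) := {f | ∃ h : G n, h * f * h⁻¹ = f⁻¹}

/-- `S^j`: the set of compositions `s_1 ∘ ⋯ ∘ s_j` with all `s_i ∈ S`. -/
def Pow {n : ℕ} (S : Set (G n)) (j : ℕ) : Set (G n) :=
  {f | ∃ s : Fin j → G n, (∀ i, s i ∈ S) ∧ f = (List.ofFn s).prod}

/-- `R^∞`, the union of the `R^m`, `m ≥ 1`. -/
def RevInf (n : ℕ) : Set (G n) := {f | ∃ m, 1 ≤ m ∧ f ∈ Pow (Rev n) m}

/-- `k(n)`: the least `k ≥ 1` with `I^k = R^∞`. -/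
noncomputable def kMin (n : ℕ) : ℕ := sInf {k | 1 ≤ k ∧ Pow (Inv n) k = RevInf n}

/-- `m(n)`: the least `m ≥ 1` with `R^m = R^∞`. -/
noncomputable def mMin (n : ℕ) : ℕ := sInf {m | 1 ≤ m ∧ Pow (Rev n) m = RevInf n}

variable {n : ℕ}

lemma pow_rev_two_of_inv_four {F : G n} (h : F ∈ Pow (Inv n) 4) : F ∈ Pow (Rev n) 2 := by
  obtain ⟨s, hs, rfl⟩ := h
  refine ⟨![s 0 * s 1, s 2 * s 3], ?_, ?_⟩
  · intro i
    fin_cases i
    · exact ProductLengths.inv_mul_inv_mem_rev (hs 0) (hs 1)
    · exact ProductLengths.inv_mul_inv_mem_rev (hs 2) (hs 3)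
  · simp [List.ofFn_succ, mul_assoc, Fin.succ_zero_eq_one]

lemma det_of_mem (hn : 2 ≤ n) {F : G n} (hF : F ∈ RevInf n) :
    (linPart (F : FormalMap n)).det = 1 ∨ (linPart (F : FormalMap n)).det = -1 := by
  have h := (ProductLengths.result n hn).2.1
  have h2 : F ∈ ProductLengths.RevInf n := hF
  rw [h] at h2
  exact h2

lemma four_two {F : G 2} (hF : F ∈ RevInf 2) : F ∈ Pow (Inv 2) 4 :=
  Pool.Agent.L7h57.RV.n2 F (det_of_mem le_rfl hF)

lemma pow_inv_two_four : Pow (Inv 2) 4 = RevInf 2 := by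
  apply Set.Subset.antisymm
  · exact ProductLengths.pow_inv_subset (by norm_num)
  · exact fun F hF => four_two hF

lemma pow_rev_two_two : Pow (Rev 2) 2 = RevInf 2 := by
  apply Set.Subset.antisymm
  · exact fun F hF => ⟨2, by norm_num, hF⟩
  · exact fun F hF => pow_rev_two_of_inv_four (four_two hF)

/-- **Main theorem.** In dimension two `I⁴ = R² = R^∞`, `k(2) = 4` and `m(2) = 2`. -/
theorem result :
    Pow (Inv 2) 4 = RevInf 2 ∧ Pow (Rev 2) 2 = RevInf 2 ∧ kMin 2 = 4 ∧ mMin 2 = 2 := by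
  refine ⟨pow_inv_two_four, pow_rev_two_two, ?_, ?_⟩
  · apply le_antisymm
    · exact Nat.sInf_le ⟨by norm_num, pow_inv_two_four⟩
    · exact (ProductLengths.result 2 le_rfl).2.2.2.2.2.1
  · apply le_antisymm
    · exact Nat.sInf_le ⟨by norm_num, pow_rev_two_two⟩
    · exact (ProductLengths.result 2 le_rfl).2.2.2.2.1.1

end Pool.Agent.Results.MP_2a1f98_al.DimensionTwo
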