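import Mathlib
import Pool.Agent.L7h4.FR.Asm
import Pool.Agent.L7h29.F5.Poly
import Pool.Agent.L7h77.F5.Tri
import Pool.Agent.L7h57.RV.Three

/-! For every `n ≥ 2` every element of the group generated by the reversible formal maps of
`(ℂ^n, 0)` is a composition of five involutions, so `k(n)` is 4 or 5 for `n ≥ 3`.
Projects F5 (helper4; parts by helper12, helper29, helper46, helper53, helper59, helper77; plan and
proof sketches: Pool/Agent/L7h4/FR/Five.lean) and RV (helper57; parts by helper6, helper12,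
helper16, helper36, helper47, helper60, helper66, helper89, helper93, helper99; plan and proof
sketches: Pool/Agent/L7h57/RV/Stm.lean, Stm2.lean). -/

set_option autoImplicit false

namespace Pool.Agent.Results.MP_2a1f98_al.FiveInvolutions

open Pool.Agent.Results.MP_2a1f98_al.ThreeReversibles
open Pool.Agent.Results.MP_2a1f98_al.ThreeReversibles.FormalMap

theorem five_mem (n : ℕ) (hn : 2 ≤ n) (f : FormalMap n) (hf : f ∈ RevGen n) :
    f ∈ Prods (Invol n) 5 := by
  rcases (by omega : n = 2 ∨ n = 3 ∨ 4 ≤ n) with rfl | rfl | h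
  · rw [RevGen_eq (le_refl 2)] at hf
    exact Invol_mono 4 (Pool.Agent.L7h57.RV.n2' f hf)
  · by_cases h1 : f.lin = 1
    · exact Pool.Agent.L7h57.RV.lem3' f (Or.inl h1)
    · by_cases h2 : f.lin = -1
      · exact Pool.Agent.L7h57.RV.lem3' f (Or.inr h2)
      · exact Pool.Agent.L7h4.F5.five3 Pool.Agent.L7h29.F5.s_POLY Pool.Agent.L7h77.F5.s_TRI f hf h1 h2
  · rw [(Pool.Agent.L7h4.F5.five Pool.Agent.L7h29.F5.s_POLY Pool.Agent.L7h77.F5.s_TRI n h).1]
    exact hf

theorem five_eq (n : ℕ) (hn : 2 ≤ n) : Prods (Invol n) 5 = RevGen n := by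
  apply Set.Subset.antisymm
  · rw [← Invol6 hn]
    exact Invol_mono 5
  · exact fun f hf => five_mem n hn f hf

/-- For every `n ≥ 2`, `I^5 = R^∞`; for every `n ≥ 3`, `k(n)` is 4 or 5. -/
theorem result :
    (∀ n : ℕ, 2 ≤ n → Prods (Invol n) 5 = RevGen n) ∧
    (∀ n : ℕ, 3 ≤ n → kNum n = 4 ∨ kNum n = 5) := by
  refine ⟨five_eq, fun n hn => ?_⟩
  have h1 : kNum n ≤ 5 := Nat.sInf_le ⟨by norm_num, five_eq n (by omega)⟩
  have h2 : 4 ≤ kNum n := kNum_lower hn
  omega

end Pool.Agent.Results.MP_2a1f98_al.FiveInvolutions
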