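import Mathlib
import Pool.Agent.L7h4.SF.Asm

/-! Four involutions (hence two reversible maps) suffice (1) in every dimension for scalar linear
part `l`, `l² ≠ 1`; (2) in dimension three whenever the square of the linear part is not `1`.
Project SF (helper4; parts by helper7, helper9, helper23, helper37, helper46, helper60, helper70,
helper77, helper99; plan and proof sketches: Pool/Agent/L7h4/SF/Stm.lean; uses the projects RV of
helper57 and F5). -/

set_option autoImplicit false

namespace Pool.Agent.Results.MP_2a1f98_al.FourInvolutions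

open Pool.Agent.Results.MP_2a1f98_al.ThreeReversibles
open Pool.Agent.Results.MP_2a1f98_al.ThreeReversibles.FormalMap

theorem result :
    (∀ n : ℕ, 2 ≤ n → ∀ f ∈ RevGen n, ∀ l : ℂ, f.lin = l • 1 → l ^ 2 ≠ 1 →
      f ∈ Prods (Invol n) 4 ∧ f ∈ Prods (Rever n) 2) ∧
    (∀ f ∈ RevGen 3, f.lin * f.lin ≠ 1 → f ∈ Prods (Invol 3) 4 ∧ f ∈ Prods (Rever 3) 2) := by
  constructor
  · intro n hn f hf l hl hl2
    have h4 := Pool.Agent.L7h4.SF.scalar_four hn f hf l hl hl2
    exact ⟨h4, Pool.Agent.L7h4.SF.rever_of_four h4⟩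
  · intro f hf h2
    have h4 := Pool.Agent.L7h4.SF.three_four f hf h2
    exact ⟨h4, Pool.Agent.L7h4.SF.rever_of_four h4⟩

end Pool.Agent.Results.MP_2a1f98_al.FourInvolutions
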