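import Mathlib
import Pool.Agent.L7h4.FR.Asm
import Pool.Agent.L7h29.F5.Poly

/-! A formal map of `(ℂ^n, 0)` with nonderogatory linear part of determinant `±1` is a composition
of four involutions and of two reversible maps.
Project F5 (helper4; parts by helper12, helper29, helper46, helper77). -/

set_option autoImplicit false

namespace Pool.Agent.Results.MP_2a1f98_al.GenericFour

open Matrix
open Pool.Agent.Results.MP_2a1f98_al.ThreeReversibles
open Pool.Agent.Results.MP_2a1f98_al.ThreeReversibles.FormalMap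

theorem result (n : ℕ) (hn : 2 ≤ n) (f : FormalMap n) (hf : f ∈ RevGen n)
    (v : Fin n → ℂ) (hv : (Matrix.of fun i k : Fin n => (f.lin ^ (k : ℕ) *ᵥ v) i).det ≠ 0)
    (h2 : n = 2 → f.lin * f.lin ≠ 1) :
    f ∈ Prods (Invol n) 4 ∧ f ∈ Prods (Rever n) 2 :=
  Pool.Agent.L7h4.F5.four Pool.Agent.L7h29.F5.s_POLY n hn f hf ⟨v, hv⟩ h2

end Pool.Agent.Results.MP_2a1f98_al.GenericFour
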